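import Pool.Agent.Y114.OP.Stm
import Pool.Agent.Y115.ST.Gal
import Pool.Agent.Y960.RM.TH

/-!
# Central endomorphisms are scalars (job OP-CTR)

An endomorphism which commutes with the Galois group of the rational numbers and is an operator
attached to an additive function of the eigenvalues of a Frobenius element is a scalar.
-/

set_option autoImplicit false

namespace Pool.Agent.Y487.OP

open NumberField Polynomial Module TensorProduct Pool.Agent.W569.FM Pool.Agent.Y115.R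
  Pool.Agent.Y115.T Pool.Agent.Y115.ST Pool.Agent.TH118.SG Pool.Agent.Y114.RM
open Pool.Agent.Y960.RM (tr)
open Pool.Agent.Y115.B (continuous_dt')

/-- the extension by zero of powers -/
theorem ext0_zpow {K : Type} [Field K] [CharZero K] [IsAlgClosed K] (θ : Additive Kˣ →+ K) {α : K}
    (h : α ≠ 0) (k : ℤ) : ext0 θ (α ^ k) = k * ext0 θ α := by
  have hinv : ext0 θ (α⁻¹) = - ext0 θ α := by
    have h1 := ext0_mul θ h (inv_ne_zero h)
    rw [mul_inv_cancel₀ h, ext0_one] at h1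
    linear_combination -h1
  have hnat : ∀ m : ℕ, ext0 θ (α ^ m) = m * ext0 θ α := by
    intro m
    rcases Nat.eq_zero_or_pos m with rfl | hm
    · rw [pow_zero, ext0_one]; simp
    · exact ext0_pow θ α hm
  obtain ⟨m, rfl | rfl⟩ := k.eq_nat_or_neg
  · rw [zpow_natCast, hnat]; simp
  · have h2 : ext0 θ ((α ^ m)⁻¹) = -ext0 θ (α ^ m) := by
      have h1 := ext0_mul θ (pow_ne_zero m h) (inv_ne_zero (pow_ne_zero m h))
      rw [mul_inv_cancel₀ (pow_ne_zero m h), ext0_one] at h1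
      linear_combination -h1
    rw [zpow_neg, zpow_natCast, h2, hnat]
    push_cast
    ring

/-- pulling back an operator along an injective intertwining map -/
theorem IsOp.pull {K : Type} [Field K] [CharZero K] [IsAlgClosed K] {V U : Type} [AddCommGroup V]
    [Module K V] [AddCommGroup U] [Module K U] {θ : Additive Kˣ →+ K} {g Y : End K V}
    (h : IsOp θ g Y) (j : U →ₗ[K] V) (hj : Function.Injective j) (g' Y' : End K U)
    (hg : ∀ x, j (g' x) = g (j x)) (hY : ∀ x, j (Y' x) = Y (j x)) : IsOp θ g' Y' := by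
  intro β x hx
  apply hj
  rw [hY, map_smul]
  apply h β
  rw [Module.End.mem_maxGenEigenspace] at hx ⊢
  obtain ⟨k, hk⟩ := hx
  refine ⟨k, ?_⟩
  have h1 : ∀ (k : ℕ) (x : U), ((g - β • (1 : End K V)) ^ k) (j x) =
      j (((g' - β • (1 : End K U)) ^ k) x) := by
    intro k
    induction k with
    | zero => intro x; simp
    | succ k ih =>
      intro x
      rw [pow_succ, pow_succ, Module.End.mul_apply, Module.End.mul_apply, ← ih]
      congr 1
      simp [hg]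
  rw [h1, hk, map_zero]

/-- the matrix of the base change -/
theorem base_coord {k : Type} [Field k] {n : ℕ} [Algebra k ℂ] (T : End k (Fin n → k))
    (v : ℂ ⊗[k] (Fin n → k)) :
    TensorProduct.piScalarRight k ℂ ℂ (Fin n) (T.baseChange ℂ v) =
      ((LinearMap.toMatrix' T).map (algebraMap k ℂ)).mulVec
        (TensorProduct.piScalarRight k ℂ ℂ (Fin n) v) := by
  induction v using TensorProduct.induction_on with
  | zero => simp
  | add x y hx hy => rw [map_add, map_add, map_add, hx, hy, Matrix.mulVec_add]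
  | tmul a x =>
    rw [LinearMap.baseChange_tmul]
    funext i
    simp only [TensorProduct.piScalarRight_apply, TensorProduct.piScalarRightHom_tmul]
    have h1 : T x = (LinearMap.toMatrix' T).mulVec x := by
      rw [← Matrix.toLin'_apply, Matrix.toLin'_toMatrix']
    rw [h1]
    simp only [Matrix.mulVec, dotProduct, Matrix.map_apply, Algebra.smul_def]
    rw [map_sum, Finset.sum_mul]
    refine Finset.sum_congr rfl fun j _ => ?_
    rw [map_mul]
    ring

/-- the eigenvalues of the operator -/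
theorem eig_val {ℓ : ℕ} [Fact ℓ.Prime] {n : ℕ} (ρ : GF ℚ →* GL (Fin n) (PadicAlgCl ℓ))
    (hρ : Continuous ρ) (ι : PadicAlgCl ℓ →+* ℂ) {w : ℤ} {l : Fin 3 → ℕ}
    (hl : ∀ i, (l i).Prime) (hinj : Function.Injective l) (hlℓ : ∀ i, l i ≠ ℓ)
    (Q : Fin 3 → Ideal (OO ℚ)) (hQ : ∀ i, (Q i).IsPrime) (hQl : ∀ i, (l i : OO ℚ) ∈ Q i)
    (σ : Fin 3 → GF ℚ) (hσ : ∀ i, FrobAt (l i) (Q i) (σ i))
    (hA : ∀ i, ∀ a ∈ (((ρ (σ i)⁻¹ : GL (Fin n) (PadicAlgCl ℓ)) :
        Matrix (Fin n) (Fin n) (PadicAlgCl ℓ)).charpoly.map ι).roots,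
      IsAlgebraic ℚ a ∧ ‖a‖ ^ 2 = (l i : ℝ) ^ w)
    (Z : Matrix (Fin n) (Fin n) (PadicAlgCl ℓ))
    (hZ : ∀ g, Z * (ρ g : Matrix (Fin n) (Fin n) (PadicAlgCl ℓ)) =
      (ρ g : Matrix (Fin n) (Fin n) (PadicAlgCl ℓ)) * Z) (θ : Additive ℂˣ →+ ℂ)
    (hop : IsOp θ (Matrix.mulVecLin (((ρ (σ 0)⁻¹ : GL (Fin n) (PadicAlgCl ℓ)) :
        Matrix (Fin n) (Fin n) (PadicAlgCl ℓ)).map ι)) (Matrix.mulVecLin (Z.map ι)))
    (c : PadicAlgCl ℓ) (hc : Module.End.HasEigenvalue (Matrix.mulVecLin Z) c) :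
    ι c = (w : ℂ) / 2 * ext0 θ (l 0 : ℂ) := by
  classical
  set W : Submodule (PadicAlgCl ℓ) (Fin n → PadicAlgCl ℓ) :=
    Module.End.eigenspace (Matrix.mulVecLin Z) c with hWdef
  have hWmem : ∀ x, x ∈ W ↔ Z.mulVec x = c • x := by
    intro x
    rw [hWdef, Module.End.mem_eigenspace_iff, Matrix.mulVecLin_apply]
  have hW : ∀ g, W ≤ W.comap (act ρ g) := by
    intro g x hx
    rw [Submodule.mem_comap, hWmem, act_apply, Matrix.mulVec_mulVec, hZ, ← Matrix.mulVec_mulVec,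
      (hWmem x).1 hx, Matrix.mulVec_smul]
  obtain ⟨d, hd⟩ : ∃ d, d = finrank (PadicAlgCl ℓ) W := ⟨_, rfl⟩
  have hd0 : 0 < d := by
    rw [hd]
    have : Nontrivial W := Submodule.nontrivial_iff_ne_bot.2 hc
    exact finrank_pos
  set ψ : GF ℚ →* (PadicAlgCl ℓ)ˣ := dt ρ W hW with hψ
  have hψc : Continuous ψ := continuous_dt' ρ hρ W hW
  have hιinj : Function.Injective ι := ι.injective
  have hι0 : ∀ g, ι (ψ g : PadicAlgCl ℓ) ≠ 0 := by
    intro g h0
    exact (ψ g).ne_zero (hιinj (by rw [h0, map_zero]))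
  -- eigenvalues
  have heig : ∀ i, IsAlgebraic ℚ (ι (ψ (σ i)⁻¹ : PadicAlgCl ℓ)) ∧
      ‖ι (ψ (σ i)⁻¹ : PadicAlgCl ℓ)‖ ^ 2 = (l i : ℝ) ^ (w * d) := by
    intro i
    obtain ⟨A, hA1, hA2, hA3⟩ := exists_eig ρ ι W hW (σ i)⁻¹
    have hmem : ∀ a ∈ A, IsAlgebraic ℚ a ∧ ‖a‖ ^ 2 = (l i : ℝ) ^ w := fun a ha =>
      hA i a (Multiset.mem_of_le hA2 ha)
    have hl0 : (l i : ℝ) ≠ 0 := by exact_mod_cast (hl i).ne_zero
    have key : ∀ B : Multiset ℂ, (∀ a ∈ B, IsAlgebraic ℚ a ∧ ‖a‖ ^ 2 = (l i : ℝ) ^ w) →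
        IsAlgebraic ℚ B.prod ∧ ‖B.prod‖ ^ 2 = (l i : ℝ) ^ (w * Multiset.card B) := by
      intro B
      induction B using Multiset.induction_on with
      | empty =>
        intro _
        rw [Multiset.prod_zero]
        refine ⟨isAlgebraic_one, ?_⟩
        simp
      | cons b B ih =>
        intro h
        obtain ⟨h1, h2⟩ := h b (Multiset.mem_cons_self b B)
        obtain ⟨h3, h4⟩ := ih fun a ha => h a (Multiset.mem_cons_of_mem ha)
        rw [Multiset.prod_cons, Multiset.card_cons]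
        refine ⟨h1.mul h3, ?_⟩
        rw [norm_mul, mul_pow, h2, h4, ← zpow_add₀ hl0]
        congr 1
        push_cast
        ring
    obtain ⟨h1, h2⟩ := key A hmem
    rw [hA3] at h1 h2
    rw [hA1, ← hd] at h2
    exact ⟨h1, h2⟩
  have halg : ∀ i, IsAlgebraic ℚ (ψ (σ i) : PadicAlgCl ℓ) := by
    intro i
    have h1 := (heig i).1
    have h2 : IsAlgebraic ℚ ((ψ (σ i)⁻¹ : (PadicAlgCl ℓ)ˣ) : PadicAlgCl ℓ) :=
      (isAlgebraic_algHom_iff (RingHom.toRatAlgHom ι) hιinj).1 h1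
    have h3 : ((ψ (σ i) : (PadicAlgCl ℓ)ˣ) : PadicAlgCl ℓ) =
        ((ψ (σ i)⁻¹ : (PadicAlgCl ℓ)ˣ) : PadicAlgCl ℓ)⁻¹ := by
      rw [map_inv, Units.val_inv_eq_inv_val, inv_inv]
    rw [h3]
    exact h2.inv
  obtain ⟨N, a, hN, hNa⟩ := char_bar ℓ ψ hψc l hl hinj hlℓ Q hQ hQl σ hσ halg
  have hNa0 := hNa (l 0) (Q 0) (σ 0) (hQ 0) (not_mem_of_ne (hl 0) (hlℓ 0) (hQ 0).ne_top (hQl 0))
    (hσ 0)
  obtain ⟨u, hu⟩ : ∃ u : ℂ, u = ι (ψ (σ 0)⁻¹ : PadicAlgCl ℓ) := ⟨_, rfl⟩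
  have hu0 : u ≠ 0 := by rw [hu]; exact hι0 _
  have huN : u ^ N = (l 0 : ℂ) ^ (-a) := by
    have h1 := congrArg ι hNa0
    rw [map_pow, map_zpow₀, map_natCast] at h1
    have h2 : u = (ι (ψ (σ 0) : PadicAlgCl ℓ))⁻¹ := by
      rw [hu, map_inv, Units.val_inv_eq_inv_val, map_inv₀]
    rw [h2, inv_pow, h1, zpow_neg]
  have hl0R : (l 0 : ℝ) ≠ 0 := by exact_mod_cast (hl 0).ne_zero
  have hl0C : (l 0 : ℂ) ≠ 0 := by exact_mod_cast (hl 0).ne_zero
  have hwd : w * d * N = -a * 2 := by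
    have h1 := congrArg (fun z : ℂ => ‖z‖ ^ 2) huN
    simp only [norm_pow, norm_zpow, Complex.norm_natCast] at h1
    have h2 : (‖u‖ ^ N) ^ 2 = (l 0 : ℝ) ^ (w * d * N) := by
      rw [← pow_mul, mul_comm N 2, pow_mul, hu, (heig 0).2, ← zpow_natCast, ← zpow_mul]
    have h3 : ((l 0 : ℝ) ^ (-a)) ^ 2 = (l 0 : ℝ) ^ (-a * 2) := by
      rw [← zpow_natCast, ← zpow_mul]
      rfl
    rw [h2, h3] at h1
    exact zpow_right_injective₀ (by exact_mod_cast (hl 0).pos)
      (by exact_mod_cast (hl 0).one_lt.ne') h1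
  -- the restriction to the eigenspace
  let b : Basis (Fin d) (PadicAlgCl ℓ) W := (Module.finBasisOfFinrankEq (PadicAlgCl ℓ) W hd.symm)
  obtain ⟨m, hm⟩ : ∃ m, m = LinearMap.toMatrix b b (res ρ W hW (σ 0)⁻¹) := ⟨_, rfl⟩
  have hmdet : m.det = (ψ (σ 0)⁻¹ : PadicAlgCl ℓ) := by
    rw [hm, LinearMap.det_toMatrix, hψ, coe_dt]
  -- the matrix of the inclusion and a left inverse
  obtain ⟨U, hU⟩ : ∃ U : Matrix (Fin n) (Fin d) (PadicAlgCl ℓ),
    U = Matrix.of fun i k => (b k : Fin n → PadicAlgCl ℓ) i := ⟨_, rfl⟩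
  have hUv : ∀ x : Fin d → PadicAlgCl ℓ, U.mulVec x =
      ((b.equivFun.symm x : W) : Fin n → PadicAlgCl ℓ) := by
    intro x
    rw [Basis.equivFun_symm_apply]
    funext i
    rw [hU]
    simp only [Matrix.mulVec, dotProduct, Matrix.of_apply, AddSubmonoidClass.coe_finsetSum,
      Submodule.coe_smul, Finset.sum_apply, Pi.smul_apply, smul_eq_mul]
    exact Finset.sum_congr rfl fun _ _ => mul_comm _ _
  have hUinj : Function.Injective (Matrix.mulVecLin U) := by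
    intro x y hxy
    rw [Matrix.mulVecLin_apply, Matrix.mulVecLin_apply, hUv, hUv] at hxy
    exact b.equivFun.symm.injective (Subtype.ext hxy)
  obtain ⟨Lf, hLf⟩ := LinearMap.exists_leftInverse_of_injective (Matrix.mulVecLin U)
    (LinearMap.ker_eq_bot.2 hUinj)
  obtain ⟨L, hL⟩ : ∃ L, L = LinearMap.toMatrix' Lf := ⟨_, rfl⟩
  have hLU : L * U = 1 := by
    have h1 : Lf = Matrix.mulVecLin L := by
      rw [hL, ← Matrix.toLin'_apply', Matrix.toLin'_toMatrix']
    rw [h1, ← Matrix.mulVecLin_mul] at hLf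
    have h2 : Matrix.toLin' (L * U) = Matrix.toLin' (1 : Matrix (Fin d) (Fin d) (PadicAlgCl ℓ)) := by
      rw [Matrix.toLin'_one]
      exact hLf
    exact Matrix.toLin'.injective h2
  have hUm : ((ρ (σ 0)⁻¹ : GL (Fin n) (PadicAlgCl ℓ)) :
      Matrix (Fin n) (Fin n) (PadicAlgCl ℓ)) * U = U * m := by
    apply Matrix.toLin'.injective
    apply LinearMap.ext
    intro x
    rw [Matrix.toLin'_apply, Matrix.toLin'_apply, ← Matrix.mulVec_mulVec, ← Matrix.mulVec_mulVec,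
      hUv, hUv]
    have h1 : m.mulVec x = b.equivFun (res ρ W hW (σ 0)⁻¹ (b.equivFun.symm x)) := by
      rw [hm]
      have h2 := LinearMap.toMatrix_mulVec_repr b b (res ρ W hW (σ 0)⁻¹) (b.equivFun.symm x)
      have h3 : (b.repr (b.equivFun.symm x) : Fin d → PadicAlgCl ℓ) = x := by
        have := b.equivFun.apply_symm_apply x
        exact this
      rw [h3] at h2
      exact h2
    rw [h1, LinearEquiv.symm_apply_apply]
    rfl
  have hZU : Z * U = c • U := by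
    apply Matrix.toLin'.injective
    apply LinearMap.ext
    intro x
    rw [Matrix.toLin'_apply, Matrix.toLin'_apply, ← Matrix.mulVec_mulVec, Matrix.smul_mulVec,
      hUv]
    exact (hWmem _).1 (b.equivFun.symm x).2
  -- over the complex numbers
  have hinj' : Function.Injective (Matrix.mulVecLin (U.map ι)) := by
    have h1 : L.map ι * U.map ι = 1 := by
      rw [← Matrix.map_mul, hLU, Matrix.map_one ι (map_zero ι) (map_one ι)]
    intro x y hxy
    rw [Matrix.mulVecLin_apply, Matrix.mulVecLin_apply] at hxy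
    have h2 := congrArg (L.map ι).mulVec hxy
    rw [Matrix.mulVec_mulVec, Matrix.mulVec_mulVec, h1, Matrix.one_mulVec, Matrix.one_mulVec] at h2
    exact h2
  have hpull : IsOp θ (Matrix.mulVecLin (m.map ι)) ((ι c) • (1 : End ℂ (Fin d → ℂ))) := by
    refine IsOp.pull hop (Matrix.mulVecLin (U.map ι)) hinj' _ _ (fun x => ?_) (fun x => ?_)
    · rw [Matrix.mulVecLin_apply, Matrix.mulVecLin_apply, Matrix.mulVecLin_apply,
        Matrix.mulVecLin_apply, Matrix.mulVec_mulVec, Matrix.mulVec_mulVec, ← Matrix.map_mul,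
        ← Matrix.map_mul, hUm]
    · rw [LinearMap.smul_apply, Module.End.one_apply, map_smul, Matrix.mulVecLin_apply,
        Matrix.mulVecLin_apply, Matrix.mulVec_mulVec, ← Matrix.map_mul, hZU]
      have h1 : (c • U).map ι = ι c • U.map ι := by
        ext i k
        simp [Matrix.map_apply, Matrix.smul_apply]
      rw [h1, Matrix.smul_mulVec]
  have hdetC : LinearMap.det (Matrix.mulVecLin (m.map ι)) = u := by
    rw [← Matrix.toLin'_apply', LinearMap.det_toLin', hu, ← hmdet]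
    exact (RingHom.map_det ι m).symm
  have hginj : Function.Injective (Matrix.mulVecLin (m.map ι)) := by
    have h1 : IsUnit (LinearMap.det (Matrix.mulVecLin (m.map ι))) := by
      rw [hdetC]; exact isUnit_iff_ne_zero.2 hu0
    exact ((Module.End.isUnit_iff _).1 ((LinearMap.isUnit_iff_isUnit_det _).2 h1)).1
  have htr := tr ℂ (Fin d → ℂ) θ _ _ hginj hpull
  rw [hdetC, map_smul, LinearMap.trace_one, Module.finrank_fin_fun, smul_eq_mul] at htr
  have h5 : (N : ℂ) * ext0 θ u = -a * ext0 θ (l 0 : ℂ) := by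
    rw [← ext0_pow θ u hN, huN, ext0_zpow θ hl0C]
    push_cast
    ring
  have h6 : ((w * d * N : ℤ) : ℂ) = ((-a * 2 : ℤ) : ℂ) := by rw [hwd]
  push_cast at h6
  have hdC : (d : ℂ) ≠ 0 := by exact_mod_cast hd0.ne'
  have hNC : (N : ℂ) ≠ 0 := by exact_mod_cast hN.ne'
  have h7 : (d : ℂ) * N * (ι c - (w : ℂ) / 2 * ext0 θ (l 0 : ℂ)) = 0 := by
    linear_combination (N : ℂ) * htr + h5 - (1 / 2) * ext0 θ (l 0 : ℂ) * h6
  have h8 := (mul_eq_zero.1 h7).resolve_left (mul_ne_zero hdC hNC)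
  linear_combination h8

theorem ctr : Pool.Agent.Y114.OP.S_CTR := by
  intro ℓ _ n ρ hρ w l hl hinj hlℓ Q hQ hQl σ hσ P hP hPw z hz _ θ hop
  classical
  rcases Nat.eq_zero_or_pos n with hn | hn
  · subst hn
    exact ⟨0, Subsingleton.elim _ _⟩
  -- the embedding
  obtain ⟨ι, hι⟩ : ∃ ι : PadicAlgCl ℓ →+* ℂ, ∀ x : ℚ_[ℓ],
      ι (algebraMap ℚ_[ℓ] (PadicAlgCl ℓ) x) = algebraMap ℚ_[ℓ] ℂ x := by
    let f : PadicAlgCl ℓ →ₐ[ℚ_[ℓ]] ℂ := IsAlgClosed.lift
    exact ⟨f, fun x => f.commutes x⟩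
  -- the representation over the algebraic closure
  let f : GF ℚ →* Matrix (Fin n) (Fin n) (PadicAlgCl ℓ) :=
    { toFun := fun g => (LinearMap.toMatrix' (ρ g)).map (algebraMap ℚ_[ℓ] (PadicAlgCl ℓ))
      map_one' := by
        rw [map_one, LinearMap.toMatrix'_one, Matrix.map_one _ (map_zero _) (map_one _)]
      map_mul' := by
        intro g h
        rw [map_mul, LinearMap.toMatrix'_mul, Matrix.map_mul] }
  have hf : ∀ g, f g = (LinearMap.toMatrix' (ρ g)).map (algebraMap ℚ_[ℓ] (PadicAlgCl ℓ)) :=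
    fun g => rfl
  have hfc : Continuous f := by
    show Continuous fun g => (LinearMap.toMatrix' (ρ g)).map (algebraMap ℚ_[ℓ] (PadicAlgCl ℓ))
    exact hρ.matrix_map (continuous_algebraMap ℚ_[ℓ] (PadicAlgCl ℓ))
  set ρ' : GF ℚ →* GL (Fin n) (PadicAlgCl ℓ) := f.toHomUnits with hρ'
  have hρ'v : ∀ g, ((ρ' g : GL (Fin n) (PadicAlgCl ℓ)) : Matrix (Fin n) (Fin n) (PadicAlgCl ℓ)) =
      (LinearMap.toMatrix' (ρ g)).map (algebraMap ℚ_[ℓ] (PadicAlgCl ℓ)) := fun g => rfl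
  have hρ'c : Continuous ρ' := by
    rw [Units.continuous_iff]
    refine ⟨hfc, ?_⟩
    have h2 : (fun g => (((ρ' g)⁻¹ : GL (Fin n) (PadicAlgCl ℓ)) :
        Matrix (Fin n) (Fin n) (PadicAlgCl ℓ))) = fun g => f g⁻¹ := by
      funext g
      rw [← map_inv]
      rfl
    rw [h2]
    exact hfc.comp continuous_inv
  have hmapι : ∀ M : Matrix (Fin n) (Fin n) ℚ_[ℓ],
      (M.map (algebraMap ℚ_[ℓ] (PadicAlgCl ℓ))).map ι = M.map (algebraMap ℚ_[ℓ] ℂ) := by
    intro M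
    ext i j
    simp [Matrix.map_apply, hι]
  have hA : ∀ i, ∀ a ∈ (((ρ' (σ i)⁻¹ : GL (Fin n) (PadicAlgCl ℓ)) :
        Matrix (Fin n) (Fin n) (PadicAlgCl ℓ)).charpoly.map ι).roots,
      IsAlgebraic ℚ a ∧ ‖a‖ ^ 2 = (l i : ℝ) ^ w := by
    intro i a ha
    have h1 : (((ρ' (σ i)⁻¹ : GL (Fin n) (PadicAlgCl ℓ)) :
        Matrix (Fin n) (Fin n) (PadicAlgCl ℓ)).charpoly.map ι) = (P i).map (algebraMap ℚ ℂ) := by
      rw [hρ'v, Matrix.charpoly_map, Polynomial.map_map]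
      have h2 : ι.comp (algebraMap ℚ_[ℓ] (PadicAlgCl ℓ)) = algebraMap ℚ_[ℓ] ℂ :=
        RingHom.ext hι
      rw [h2]
      have h3 : (LinearMap.toMatrix' (ρ (σ i)⁻¹)).charpoly = (ρ (σ i)⁻¹).charpoly := by
        rw [← LinearMap.charpoly_toMatrix (ρ (σ i)⁻¹) (Pi.basisFun ℚ_[ℓ] (Fin n)),
          LinearMap.toMatrix_eq_toMatrix']
      rw [h3, hP, Polynomial.map_map]
      congr 1
      exact Subsingleton.elim _ _
    rw [h1] at ha
    refine ⟨?_, hPw i a ?_⟩
    · refine ⟨P i, ?_, ?_⟩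
      · intro h0
        rw [h0, Polynomial.map_zero, Polynomial.roots_zero] at ha
        exact absurd ha (Multiset.notMem_zero a)
      · have h4 := (Polynomial.mem_roots'.1 ha).2
        rw [Polynomial.IsRoot.def, Polynomial.eval_map_algebraMap] at h4
        exact h4
    · exact ha
  obtain ⟨Zm, hZm⟩ : ∃ Zm : Matrix (Fin n) (Fin n) (PadicAlgCl ℓ),
    Zm = (LinearMap.toMatrix' z).map (algebraMap ℚ_[ℓ] (PadicAlgCl ℓ)) := ⟨_, rfl⟩
  have hZcomm : ∀ g, Zm * (ρ' g : Matrix (Fin n) (Fin n) (PadicAlgCl ℓ)) =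
      (ρ' g : Matrix (Fin n) (Fin n) (PadicAlgCl ℓ)) * Zm := by
    intro g
    rw [hρ'v, hZm, ← Matrix.map_mul, ← Matrix.map_mul, ← LinearMap.toMatrix'_mul,
      ← LinearMap.toMatrix'_mul, hz]
  -- transport to coordinates
  let e := TensorProduct.piScalarRight ℚ_[ℓ] ℂ ℂ (Fin n)
  have hop' : IsOp θ (Matrix.mulVecLin (((ρ' (σ 0)⁻¹ : GL (Fin n) (PadicAlgCl ℓ)) :
        Matrix (Fin n) (Fin n) (PadicAlgCl ℓ)).map ι)) (Matrix.mulVecLin (Zm.map ι)) := by
    refine IsOp.pull hop (e.symm : (Fin n → ℂ) →ₗ[ℂ] ℂ ⊗[ℚ_[ℓ]] (Fin n → ℚ_[ℓ]))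
      e.symm.injective _ _ (fun x => ?_) (fun x => ?_)
    · rw [hρ'v, hmapι]
      apply e.injective
      have h1 := base_coord (ρ (σ 0)⁻¹) (e.symm x)
      rw [show e (((e.symm : (Fin n → ℂ) →ₗ[ℂ] ℂ ⊗[ℚ_[ℓ]] (Fin n → ℚ_[ℓ]))) _) = _ from
        e.apply_symm_apply _]
      refine Eq.trans ?_ h1.symm
      rw [e.apply_symm_apply]
      rfl
    · rw [hZm, hmapι]
      apply e.injective
      have h1 := base_coord z (e.symm x)
      rw [show e (((e.symm : (Fin n → ℂ) →ₗ[ℂ] ℂ ⊗[ℚ_[ℓ]] (Fin n → ℚ_[ℓ]))) _) = _ from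
        e.apply_symm_apply _]
      refine Eq.trans ?_ h1.symm
      rw [e.apply_symm_apply]
      rfl
  obtain ⟨κ, hκ⟩ : ∃ κ : ℂ, κ = (w : ℂ) / 2 * ext0 θ (l 0 : ℂ) := ⟨_, rfl⟩
  have hA1 : ∀ c : PadicAlgCl ℓ, Module.End.HasEigenvalue (Matrix.mulVecLin Zm) c → ι c = κ := by
    intro c hc
    rw [hκ]
    exact eig_val ρ' hρ'c ι hl hinj hlℓ Q hQ hQl σ hσ hA Zm hZcomm θ hop' c hc
  -- all eigenvalues over the complex numbers
  have hA2 : ∀ γ : ℂ, Module.End.HasEigenvalue (Matrix.mulVecLin (Zm.map ι)) γ → γ = κ := by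
    intro γ hγ
    rw [Module.End.hasEigenvalue_iff_isRoot_charpoly, ← Matrix.toLin'_apply',
      Matrix.charpoly_toLin'] at hγ
    have h1 : (Zm.map ι).charpoly = Zm.charpoly.map ι := Matrix.charpoly_map Zm ι
    rw [h1] at hγ
    have hsplit : Zm.charpoly.Splits := IsAlgClosed.splits _
    have h2 : γ ∈ (Zm.charpoly.map ι).roots := by
      rw [Polynomial.mem_roots ((Matrix.charpoly_monic Zm).map ι).ne_zero]
      exact hγ
    rw [hsplit.roots_map, Multiset.mem_map] at h2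
    obtain ⟨c, hc, rfl⟩ := h2
    apply hA1
    rw [Module.End.hasEigenvalue_iff_isRoot_charpoly, ← Matrix.toLin'_apply',
      Matrix.charpoly_toLin']
    exact (Polynomial.mem_roots'.1 hc).2
  have hall : Matrix.mulVecLin (Zm.map ι) = κ • (1 : End ℂ (Fin n → ℂ)) := by
    apply LinearMap.ext
    intro x
    have hx : x ∈ ⨆ β, Module.End.maxGenEigenspace (Matrix.mulVecLin
        (((ρ' (σ 0)⁻¹ : GL (Fin n) (PadicAlgCl ℓ)) :
          Matrix (Fin n) (Fin n) (PadicAlgCl ℓ)).map ι)) β := by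
      rw [Module.End.iSup_maxGenEigenspace_eq_top]
      exact Submodule.mem_top
    induction hx using Submodule.iSup_induction' with
    | mem β x hx =>
      rw [hop' β x hx]
      by_cases h0 : x = 0
      · rw [h0]; simp
      · have h1 : ext0 θ β = κ := by
          apply hA2
          apply Module.End.hasEigenvalue_of_hasEigenvector (x := x)
          rw [Module.End.hasEigenvector_iff, Module.End.mem_eigenspace_iff]
          exact ⟨hop' β x hx, h0⟩
        rw [h1]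
        rfl
    | zero => simp
    | add x y _ _ hx hy => rw [map_add, hx, hy, map_add]
  -- conclusion
  have hmat : (LinearMap.toMatrix' z).map (algebraMap ℚ_[ℓ] ℂ) =
      κ • (1 : Matrix (Fin n) (Fin n) ℂ) := by
    rw [← hmapι, ← hZm]
    apply Matrix.toLin'.injective
    rw [map_smul, Matrix.toLin'_one]
    exact hall
  have hainj : Function.Injective (algebraMap ℚ_[ℓ] ℂ) := (algebraMap ℚ_[ℓ] ℂ).injective
  let i0 : Fin n := ⟨0, hn⟩
  refine ⟨LinearMap.toMatrix' z i0 i0, ?_⟩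
  apply LinearMap.toMatrix'.injective
  ext i j
  apply hainj
  have h1 := congrFun (congrFun hmat i) j
  have h2 := congrFun (congrFun hmat i0) i0
  rw [Matrix.map_apply, Matrix.smul_apply, Matrix.one_apply] at h1 h2
  rw [if_pos rfl, smul_eq_mul, mul_one] at h2
  rw [h1, map_smul, LinearMap.toMatrix'_one, Matrix.smul_apply, Matrix.one_apply, smul_eq_mul,
    smul_eq_mul, map_mul, h2]
  split_ifs <;> simp

end Pool.Agent.Y487.OP
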